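import Pool.Agent.PST.StmtsET2

/-!
# Squad PST, block ET, row COB (helper58)
-/

open scoped BigOperators TensorProduct

noncomputable section

namespace Pool.Agent.PST.ET.H58

variable {F V H : Type} [Field F] [CommGroup V] [Fintype V] [DecidableEq V] [Ring H] [Algebra F H]

/-- the projection is right linear -/
theorem prj_mul (α : V →* H) (lam : H →ₗ[F] F) (h : Prj α lam) (a : H) (w : V) :
    prj α lam (a * α w) = prj α lam a * α w := by
  unfold prj
  rw [Finset.sum_mul, ← Equiv.sum_comp (Equiv.mulRight w)]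
  apply Finset.sum_congr rfl
  intro u _
  have e : lam (α (u * w)⁻¹ * (a * α w)) = lam (α u⁻¹ * a) := by
    rw [← mul_assoc, ← h.inv w, ← mul_assoc, ← map_mul]
    congr 3
    rw [mul_inv_rev, ← mul_assoc, mul_inv_cancel, one_mul]
  simp only [Equiv.coe_mulRight]
  rw [e, map_mul α, smul_mul_assoc]

theorem cob : CobStmt := by
  intro F V H _ _ _ _ _ _ α lam hP hT C hC hcoc
  obtain ⟨th, hth⟩ := hT
  set c : V → V → H := fun u v => C u v * α (u * v)⁻¹ with hc
  set h : V → H := fun u => ∑ x : V, α x * th (c x⁻¹ u) * α x⁻¹ with hh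
  have aa : ∀ x y : V, α x * α y = α (x * y) := fun x y => (map_mul α x y).symm
  have key : ∀ u v, α u * h v * α u⁻¹ - h (u * v) + h u = c u v := by
    intro u v
    have e1 : α u * h v * α u⁻¹ = ∑ y : V, α y * th (c (y⁻¹ * u) v) * α y⁻¹ := by
      rw [hh]
      simp only
      rw [Finset.mul_sum, Finset.sum_mul, ← Equiv.sum_comp (Equiv.mulLeft u) (fun y : V => α y * th (c (y⁻¹ * u) v) * α y⁻¹)]
      apply Finset.sum_congr rfl
      intro x _
      simp only [Equiv.coe_mulLeft]
      rw [mul_inv_rev, mul_assoc x⁻¹ u⁻¹ u, inv_mul_cancel, mul_one, map_mul α u x, map_mul α x⁻¹ u⁻¹]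
      simp only [mul_assoc]
    rw [e1, hh]
    simp only
    rw [← Finset.sum_sub_distrib, ← Finset.sum_add_distrib]
    have e2 : ∀ y : V, α y * th (c (y⁻¹ * u) v) * α y⁻¹ - α y * th (c y⁻¹ (u * v)) * α y⁻¹
        + α y * th (c y⁻¹ u) * α y⁻¹ = α y * th (α y⁻¹ * c u v * α y) * α y⁻¹ := by
      intro y
      rw [← sub_mul, ← mul_sub, ← add_mul, ← mul_add, ← map_sub, ← map_add]
      congr 3
      have e3 := hcoc y⁻¹ u v
      have e4 := congrArg (fun z => z * α (y⁻¹ * u * v)⁻¹) e3
      simp only [zero_mul, add_mul, sub_mul] at e4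
      have f1 : α y⁻¹ * C u v * α (y⁻¹ * u * v)⁻¹ = α y⁻¹ * c u v * α y := by
        rw [hc]
        simp only
        rw [mul_assoc (α y⁻¹), mul_assoc (α y⁻¹), mul_assoc (C u v), aa]
        congr 4
        rw [mul_assoc, mul_inv_rev, inv_inv]
      have f2 : C (y⁻¹ * u) v * α (y⁻¹ * u * v)⁻¹ = c (y⁻¹ * u) v := rfl
      have f3 : C y⁻¹ (u * v) * α (y⁻¹ * u * v)⁻¹ = c y⁻¹ (u * v) := by
        rw [hc]
        simp only
        rw [mul_assoc]
      have f4 : C y⁻¹ u * α v * α (y⁻¹ * u * v)⁻¹ = c y⁻¹ u := by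
        rw [hc]
        simp only
        rw [mul_assoc, aa]
        congr 3
        rw [mul_inv_rev, ← mul_assoc, mul_inv_cancel, one_mul]
      rw [f1, f2, f3, f4] at e4
      have e5 : α y⁻¹ * c u v * α y = c (y⁻¹ * u) v - c y⁻¹ (u * v) + c y⁻¹ u := by
        have e6 : α y⁻¹ * c u v * α y - (c (y⁻¹ * u) v - c y⁻¹ (u * v) + c y⁻¹ u) = 0 := by
          rw [← e4]
          abel
        exact sub_eq_zero.mp e6
      exact e5.symm
    rw [Finset.sum_congr rfl (fun y _ => e2 y), hth, hc]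
    simp only
    rw [prj_mul α lam hP, hC, zero_mul, sub_zero]
  refine ⟨fun u => h u * α u, ?_⟩
  intro u v
  have e7 := congrArg (fun z => z * α (u * v)) (key u v)
  simp only [add_mul, sub_mul] at e7
  have g1 : α u * h v * α u⁻¹ * α (u * v) = α u * (h v * α v) := by
    rw [mul_assoc (α u * h v), aa, inv_mul_cancel_left, mul_assoc]
  have g2 : h u * α (u * v) = h u * α u * α v := by
    rw [map_mul, mul_assoc]
  have g3 : c u v * α (u * v) = C u v := by
    rw [hc]
    simp only
    rw [mul_assoc, aa, inv_mul_cancel, map_one, mul_one]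
  rw [g1, g2, g3] at e7
  exact e7

end Pool.Agent.PST.ET.H58
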