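import Pool.Agent.PST.StmtsET2
import Pool.Agent.Helper10_PFD.Sug
import Pool.Agent.Helper49_PFD.UNG

/-!
# Squad PST, block ET, row SEX (helper58): the subalgebra exists
-/

open scoped BigOperators TensorProduct

noncomputable section

namespace Pool.Agent.PST.ET.H58

open Pool.Agent.PFD.D2 (Cdv FibG)

variable {R F D H : Type} [CommRing R] [Field F] {c : Cdv R F} [Ring D] [Algebra R D]
    [Ring H] [Algebra F H]

theorem q_smul (f : FibG D H c) (r : R) (x : D) : f.q (r • x) = c.κ r • f.q x := by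
  rw [Algebra.smul_def, map_mul, f.sc, Algebra.smul_def]

theorem kpi (c : Cdv R F) : c.κ c.π = 0 := (c.ker c.π).2 ⟨1, (mul_one _).symm⟩

theorem q_pi (f : FibG D H c) (n : ℕ) (hn : 1 ≤ n) (x : D) : f.q (c.π ^ n • x) = 0 := by
  rw [q_smul, map_pow, kpi, zero_pow (by omega), zero_smul]

theorem sex (ste : SteStmt) (krs : KrsStmt) (rli : RliStmt) (upr : UprStmt) : SexStmt := by
  intro R F V H Hs _ _ _ _ _ _ _ _ _ _ _ _ _ c f α lam hP hT
  have aa : ∀ x y : V, α x * α y = α (x * y) := fun x y => (map_mul α x y).symm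
  -- a lift
  choose σ0 hσ0 using fun v => f.surj (α v)
  let P : ℕ → (V → Hs) → Prop := fun n σ => n = 0 ∨ ((∀ v, f.q (σ v) = α v) ∧ Cls c σ n)
  have h1 : ∀ (n : ℕ) (x z : V → Hs), P n x → P n (x + c.π ^ n • z) := by
    intro n x z hx
    rcases hx with hx | ⟨hq, hc⟩
    · exact Or.inl hx
    · rcases Nat.eq_zero_or_pos n with hn | hn
      · exact Or.inl hn
      · right
        constructor
        · intro v
          simp only [Pi.add_apply, Pi.smul_apply]
          rw [map_add, q_pi f n hn, add_zero, hq]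
        · intro u v
          obtain ⟨s, d, hd⟩ := hc u v
          refine ⟨s, d + (x u * z v + z u * x v + c.π ^ n • (z u * z v)) - ∑ w, s w • z w, ?_⟩
          simp only [Pi.add_apply, Pi.smul_apply]
          have e1 : ∑ w, s w • (x w + c.π ^ n • z w) = ∑ w, s w • x w + c.π ^ n • ∑ w, s w • z w := by
            rw [Finset.smul_sum, ← Finset.sum_add_distrib]
            apply Finset.sum_congr rfl
            intro w _
            rw [smul_add, smul_comm (s w)]
          rw [e1, add_mul, mul_add, mul_add, hd]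
          simp only [smul_mul_assoc, mul_smul_comm, smul_sub, smul_add]
          abel
  have h2 : ∀ (n : ℕ) (x : V → Hs), 1 ≤ n → P n x → ∃ z, P (n + 1) (x + c.π ^ n • z) := by
    intro n x hn hx
    rcases hx with hx | ⟨hq, hc⟩
    · omega
    · obtain ⟨z, hz⟩ := ste R F V H Hs c f α lam hP hT n x hn hq hc
      refine ⟨z, Or.inr ⟨?_, hz⟩⟩
      intro v
      simp only [Pi.add_apply, Pi.smul_apply]
      rw [map_add, q_pi f n hn, add_zero, hq]
  have h3 : P 1 σ0 := by
    right
    refine ⟨hσ0, ?_⟩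
    intro u v
    obtain ⟨d, hd⟩ := f.ker (σ0 u * σ0 v - σ0 (u * v)) (by
      rw [map_sub, map_mul, hσ0, hσ0, hσ0, aa, sub_self])
    refine ⟨Pi.single (u * v) 1, d, ?_⟩
    rw [pow_one, ← hd, Finset.sum_eq_single (u * v)]
    · rw [Pi.single_eq_same, one_smul]
      abel
    · intro w _ hw
      rw [Pi.single_eq_of_ne hw, zero_smul]
    · intro h
      exact absurd (Finset.mem_univ _) h
  obtain ⟨z, hz⟩ := Pool.Agent.PFD.D2.H10.sug R F (V → Hs) c P h1 h2 σ0 h3
  set σ : V → Hs := σ0 + c.π • z with hσ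
  have hq : ∀ v, f.q (σ v) = α v := by
    rcases hz 1 le_rfl with h | h
    · omega
    · exact h.1
  have hcl : ∀ n, Cls c σ (n + 1) := by
    intro n
    rcases hz (n + 1) (by omega) with h | h
    · omega
    · exact h.2
  obtain ⟨rli1, rli2, rli3⟩ := rli R F V H Hs c f α lam σ hP hq
  set N : Submodule R Hs := Submodule.span R (Set.range σ) with hN
  have hmem : ∀ v, σ v ∈ N := fun v => Submodule.subset_span ⟨v, rfl⟩
  have hsum : ∀ s : V → R, ∑ w, s w • σ w ∈ N := fun s =>
    Submodule.sum_mem _ (fun w _ => Submodule.smul_mem _ _ (hmem w))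
  have hmul : ∀ u v, σ u * σ v ∈ N := by
    intro u v
    apply krs R F Hs c N
    intro n
    obtain ⟨s, d, hd⟩ := hcl n u v
    refine ⟨c.π • d, ?_⟩
    have e : σ u * σ v - c.π ^ n • (c.π • d) = ∑ w, s w • σ w := by
      rw [hd, smul_smul, ← pow_succ]
      abel
    rw [e]
    exact hsum s
  have hclosed : ∀ a ∈ N, ∀ b ∈ N, a * b ∈ N := by
    intro a ha b hb
    have h : N * N ≤ N := by
      rw [hN, Submodule.span_mul_span, Submodule.span_le]
      rintro x ⟨y, ⟨u, rfl⟩, w, ⟨v, rfl⟩, rfl⟩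
      exact hmul u v
    exact h (Submodule.mul_mem_mul ha hb)
  -- the right multiplication by σ 1
  let g : N →ₗ[R] N := (LinearMap.mulRight R (σ 1)).restrict (fun x hx => hclosed x hx _ (hmem 1))
  have : Module.Finite R N := Module.Finite.span_of_finite R (Set.finite_range σ)
  have hg : ∀ x : N, (g x : Hs) = x * σ 1 := fun x => rfl
  have hq1 : f.q (σ 1) = 1 := by rw [hq, map_one]
  have hgb := Pool.Agent.PFD.D2.H49.ung R F N c g (by
    intro x
    obtain ⟨h, hh⟩ := f.ker ((x : Hs) * σ 1 - x) (by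
      rw [map_sub, map_mul, hq1, mul_one, sub_self])
    have hh2 : c.π • h ∈ N := by
      rw [← hh]
      exact Submodule.sub_mem _ (hclosed _ x.2 _ (hmem 1)) x.2
    refine ⟨⟨h, rli3 h hh2⟩, ?_⟩
    apply Subtype.ext
    change (g x : Hs) - x = c.π • h
    rw [hg, hh])
  obtain ⟨e, he⟩ := hgb.2 ⟨σ 1, hmem 1⟩
  have he1 : (e : Hs) * σ 1 = σ 1 := by
    rw [← hg, he]
  have hu : IsUnit (σ 1) := by
    obtain ⟨d, hd⟩ := f.ker (σ 1 - 1) (by rw [map_sub, hq1, map_one, sub_self])
    apply upr R F Hs c (σ 1) 1 d d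
    · rw [mul_one, ← hd]
      abel
    · rw [one_mul, ← hd]
      abel
  have h1N : (1 : Hs) ∈ N := by
    have : (e : Hs) = 1 := by
      have e2 : (e : Hs) * σ 1 = 1 * σ 1 := by rw [he1, one_mul]
      exact hu.mul_right_cancel e2
    rw [← this]
    exact e.2
  obtain ⟨r, hr⟩ : ∃ r : V → R, ∑ w, r w • σ w = 1 := by
    rw [hN] at h1N
    exact (Submodule.mem_span_range_iff_exists_fun R).1 h1N
  have hr1 : c.κ (r 1) = 1 := by
    have e3 := congrArg (fun x => lam (f.q x)) hr
    simp only [map_sum, q_smul, hq, map_one, map_smul, hP.del] at e3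
    have e4 : lam 1 = 1 := by
      have := hP.del 1
      rw [map_one, if_pos rfl] at this
      exact this
    rw [e4] at e3
    simpa using e3
  obtain ⟨u, hu1⟩ := c.loc (r 1) (by rw [hr1]; exact one_ne_zero)
  set σ' : V → Hs := Function.update σ 1 1 with hσ'
  have hs1 : σ' 1 = 1 := by rw [hσ', Function.update_self]
  have hs2 : ∀ v, v ≠ 1 → σ' v = σ v := fun v hv => by rw [hσ', Function.update_of_ne hv]
  have hmem' : ∀ v, σ' v ∈ Submodule.span R (Set.range σ') := fun v => Submodule.subset_span ⟨v, rfl⟩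
  have hle : N ≤ Submodule.span R (Set.range σ') := by
    rw [hN, Submodule.span_le]
    rintro x ⟨v, rfl⟩
    by_cases hv : v = 1
    · subst hv
      have e5 : r 1 • σ 1 = 1 - ∑ w ∈ Finset.univ.erase 1, r w • σ w := by
        rw [← hr, ← Finset.add_sum_erase _ _ (Finset.mem_univ (1 : V))]
        abel
      have e6 : σ 1 = (↑u⁻¹ : R) • (r 1 • σ 1) := by
        rw [smul_smul, ← hu1, Units.inv_mul, one_smul]
      rw [e6, e5]
      apply Submodule.smul_mem
      apply Submodule.sub_mem
      · rw [← hs1]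
        exact hmem' 1
      · apply Submodule.sum_mem
        intro w hw
        rw [← hs2 w (Finset.ne_of_mem_erase hw)]
        exact Submodule.smul_mem _ _ (hmem' w)
    · rw [← hs2 v hv]
      exact hmem' v
  have hN' : ∀ v, σ' v ∈ N := by
    intro v
    by_cases hv : v = 1
    · subst hv
      rw [hs1]
      exact h1N
    · rw [hs2 v hv]
      exact hmem v
  refine ⟨σ', hs1, ?_, ?_⟩
  · intro v
    by_cases hv : v = 1
    · subst hv
      rw [hs1, map_one, map_one]
    · rw [hs2 v hv, hq]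
  · intro u v
    exact hle (hclosed _ (hN' u) _ (hN' v))

end Pool.Agent.PST.ET.H58
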